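import Pool.Agent.H65.CRZ.TD
import Pool.Agent.H37.CV.All

/-!
Board crz_modules, row B: the mollified second moment with shifts.
-/

set_option autoImplicit false

open NumberField NumberField.InfinitePlace Complex Filter Topology MeasureTheory

namespace Pool.Agent.H91.CRZ

open Pool.Agent.H28.RC Pool.Agent.H25.HK Pool.Agent.H37.CV
open Pool.Agent.H65.CRZ

open scoped Classical in
/-- the weights of the large sets vanish -/
theorem xS_eq_zero {α : Type} (N : α → ℝ) (A S : Finset α) (M : ℝ)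
    (h : ∀ T : Finset α, M < nS N S * nS N T) : xS N A M S = 0 := by
  unfold xS
  rw [Finset.sum_eq_zero, mul_zero, zero_div]
  intro T hT
  exact absurd (Finset.mem_filter.1 hT).2.2 (not_le.2 (h T))

section

variable {K : Type} [Field K] [NumberField K]

/-- the weights are bounded by one -/
theorem abs_xw_le {M : ℝ} (hM : 1 ≤ M) (S : Finset (PrI K)) : |xw K M S| ≤ 1 := by
  by_cases hS : S ⊆ PM K M
  · exact (a_CX (PrI K) np (PM K M) M Pool.Agent.H96.CV.two_le_np hM).2.2 S hS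
  · obtain ⟨P, hP, hPM⟩ := Finset.not_subset.1 hS
    have h1 : M < np P := by
      by_contra h
      exact hPM (Pool.Agent.H96.CV.mem_PM.2 (not_lt.1 h))
    have h2 : np P ≤ nS np S := by
      classical
      unfold nS
      rw [← Finset.mul_prod_erase S np hP]
      have h3 : 1 ≤ ∏ x ∈ S.erase P, np x := Pool.Agent.H96.CV.one_le_nS (S.erase P)
      have h4 := Pool.Agent.H96.CV.np_pos P
      nlinarith
    have h3 : xw K M S = 0 := by
      refine xS_eq_zero np _ S M fun T => ?_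
      have h4 : 1 ≤ nS np T := Pool.Agent.H96.CV.one_le_nS T
      nlinarith
    rw [h3, abs_zero]
    exact zero_le_one

/-- the coefficients of the mollifier -/
theorem norm_cu_le {M : ℝ} (hM : 1 ≤ M) (u : ℝ) (S : Finset (PrI K)) :
    ‖cu K M u S‖ ≤ nS np S ^ (-(1 / 2) : ℝ) := by
  have h1 : 0 < nS np S := Pool.Agent.H96.CV.nS_pos S
  unfold cu
  rw [norm_mul, Complex.norm_real, Real.norm_eq_abs, Complex.norm_cpow_eq_rpow_re_of_pos h1]
  have h2 : (-(1 / 2 + (u : ℂ) * I)).re = -(1 / 2) := by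
    simp
  rw [h2]
  have h3 := mul_le_mul_of_nonneg_right (abs_xw_le hM S)
    (Real.rpow_nonneg h1.le (-(1 / 2) : ℝ))
  rwa [one_mul] at h3

/-- the conjugate of the mollifier -/
theorem conj_pol (M u : ℝ) (ψ : Ideal (𝓞 K) → ℂ) :
    (starRingEnd ℂ) (pol M (cu K M u) ψ) =
      pol M (cu K M (-u)) (fun I => (starRingEnd ℂ) (ψ I)) := by
  unfold pol
  rw [map_sum]
  refine Finset.sum_congr rfl fun S _ => ?_
  have h1 : 0 < nS np S := Pool.Agent.H96.CV.nS_pos S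
  rw [map_mul]
  congr 1
  unfold cu
  rw [map_mul, Complex.conj_ofReal]
  congr 1
  have h2 : ((nS np S : ℝ) : ℂ).arg ≠ Real.pi := by
    rw [Complex.arg_ofReal_of_nonneg h1.le]
    exact Real.pi_pos.ne
  have h3 := Complex.cpow_conj ((nS np S : ℝ) : ℂ) (-(1 / 2 + (u : ℂ) * I)) h2
  rw [Complex.conj_ofReal] at h3
  rw [← h3]
  congr 1
  rw [map_neg, map_add, map_mul, Complex.conj_ofReal, Complex.conj_I, map_div₀, map_one]
  have h4 : (starRingEnd ℂ) 2 = 2 := Complex.conj_ofNat 2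
  rw [h4]
  push_cast
  ring

end

theorem Zx_ent (K : Type) [Field K] [NumberField K] [IsTotallyComplex K] (χ : RCC K)
    (hf : χ.f ≠ ⊤) : IsEnt χ (Zx χ) := by
  obtain ⟨Z, -, -, hZ, -⟩ := a_EN K χ hf
  have h : ∃ Z, IsEnt χ Z := ⟨Z, hZ⟩
  unfold Zx
  rw [dif_pos h]
  exact h.choose_spec

/-- the factor of the dual sum is bounded -/
theorem norm_Xf_le (h5 : T_G3) (c C₀ : ℝ) (hc : 0 < c) (hC₀ : 0 < C₀) :
    ∃ C B : ℝ, 0 < C ∧ 0 ≤ B ∧ ∃ q₀ : ℕ, ∀ q : ℕ, q₀ ≤ q → ∀ (α β : ℂ) (u : ℝ),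
      ‖α‖ ≤ C₀ / Real.log q → ‖β‖ ≤ C₀ / Real.log q →
      ‖Xf (c * q) (1 / 2 + α + u * I) (1 / 2 + β - u * I)‖ ≤ C * (1 + |u|) ^ B := by
  obtain ⟨C, B, hC, hB, hG⟩ := h5
  have h1 : Tendsto (fun q : ℕ => Real.log (q : ℝ)) atTop atTop :=
    Real.tendsto_log_atTop.comp tendsto_natCast_atTop_atTop
  obtain ⟨q₁, hq1⟩ := eventually_atTop.1 (h1.eventually_ge_atTop
    (max 1 (max (16 * C₀) |Real.log c|)))
  refine ⟨Real.exp (8 * C₀) * (1 + C), B, by positivity, hB, max q₁ 1,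
    fun q hq α β u hα hβ => ?_⟩
  have h2 := hq1 q ((le_max_left _ _).trans hq)
  have hl1 : 1 ≤ Real.log q := (le_max_left _ _).trans h2
  have hl2 : 16 * C₀ ≤ Real.log q := (le_max_left _ _).trans ((le_max_right _ _).trans h2)
  have hl3 : |Real.log c| ≤ Real.log q := (le_max_right _ _).trans ((le_max_right _ _).trans h2)
  have hl0 : 0 < Real.log q := by linarith
  have hq0 : (0 : ℝ) < q := by
    have : 1 ≤ q := (le_max_right _ _).trans hq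
    exact_mod_cast this
  have hs : C₀ / Real.log q ≤ 1 / 16 := by
    rw [div_le_iff₀ hl0]
    linarith
  have hg := hG α β u (hα.trans hs) (hβ.trans hs)
  unfold Xf
  have hA0 : 0 < c * q := mul_pos hc hq0
  have hu : 1 ≤ (1 + |u|) ^ B := Real.one_le_rpow (by linarith [abs_nonneg u]) hB
  have e1 : (2 - 2 * ((1 / 2 + α + u * I) + (1 / 2 + β - u * I)) : ℂ) = -(2 * (α + β)) := by ring
  rw [norm_mul, e1]
  have e2 : ‖((c * q : ℝ) : ℂ) ^ (-(2 * (α + β)))‖ ≤ Real.exp (8 * C₀) := by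
    rw [Complex.norm_cpow_eq_rpow_re_of_pos hA0, Real.rpow_def_of_pos hA0]
    refine Real.exp_le_exp.2 ?_
    have h3 : |Real.log (c * q)| ≤ 2 * Real.log q := by
      rw [Real.log_mul hc.ne' hq0.ne']
      refine (abs_add_le _ _).trans ?_
      rw [abs_of_pos hl0]
      linarith
    have h4 : |(-(2 * (α + β))).re| ≤ 4 * C₀ / Real.log q := by
      refine (Complex.abs_re_le_norm _).trans ?_
      rw [norm_neg, norm_mul, Complex.norm_ofNat]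
      have := (norm_add_le α β).trans (add_le_add hα hβ)
      calc 2 * ‖α + β‖ ≤ 2 * (C₀ / Real.log q + C₀ / Real.log q) := by gcongr
        _ = _ := by ring
    calc Real.log (c * q) * (-(2 * (α + β))).re
        ≤ |Real.log (c * q) * (-(2 * (α + β))).re| := le_abs_self _
      _ = |Real.log (c * q)| * |(-(2 * (α + β))).re| := abs_mul _ _
      _ ≤ (2 * Real.log q) * (4 * C₀ / Real.log q) :=
          mul_le_mul h3 h4 (abs_nonneg _) (by positivity)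
      _ = 8 * C₀ := by field_simp; ring
  have e3 : ‖Gamma (1 - (1 / 2 + α + u * I)) * Gamma (1 - (1 / 2 + β - u * I)) /
      (Gamma (1 / 2 + α + u * I) * Gamma (1 / 2 + β - u * I))‖ ≤ (1 + C) * (1 + |u|) ^ B := by
    have h3 := norm_le_norm_add_norm_sub' (Gamma (1 - (1 / 2 + α + u * I)) *
      Gamma (1 - (1 / 2 + β - u * I)) /
      (Gamma (1 / 2 + α + u * I) * Gamma (1 / 2 + β - u * I))) 1
    have h4 : ‖α‖ + ‖β‖ ≤ 1 := by linarith [hα.trans hs, hβ.trans hs]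
    have h5 : C * (‖α‖ + ‖β‖) * (1 + |u|) ^ B ≤ C * (1 + |u|) ^ B := by
      have := mul_le_mul_of_nonneg_left h4 hC.le
      have h6 := mul_le_mul_of_nonneg_right this (zero_le_one.trans hu)
      rwa [mul_one] at h6
    rw [norm_one] at h3
    linarith
  have h3 := mul_le_mul e2 e3 (norm_nonneg _) (Real.exp_pos _).le
  calc _ ≤ Real.exp (8 * C₀) * ((1 + C) * (1 + |u|) ^ B) := by
        refine le_trans (le_of_eq ?_) h3
        push_cast
        rfl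
    _ = _ := by ring

/-- the logarithm of `q` is large -/
theorem log_large (C₀ δ : ℝ) (hδ : 0 < δ) : ∃ q₁ : ℕ, ∀ q : ℕ, q₁ ≤ q →
    1 ≤ Real.log q ∧ C₀ / Real.log q ≤ δ := by
  have h1 : Tendsto (fun q : ℕ => Real.log (q : ℝ)) atTop atTop :=
    Real.tendsto_log_atTop.comp tendsto_natCast_atTop_atTop
  obtain ⟨q₁, hq1⟩ := eventually_atTop.1 (h1.eventually_ge_atTop (max 1 (C₀ / δ)))
  refine ⟨q₁, fun q hq => ?_⟩
  have h2 := hq1 q hq
  have h3 : 1 ≤ Real.log q := (le_max_left _ _).trans h2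
  have h4 : C₀ / δ ≤ Real.log q := (le_max_right _ _).trans h2
  refine ⟨h3, ?_⟩
  rw [div_le_iff₀ (by linarith)]
  rwa [div_le_iff₀ hδ, mul_comm] at h4

theorem pf_B (h1 : T_AF) (h2 : T_SE) (h3 : T_DI) (h4 : T_BM) (h5 : T_G3) (h6 : T_CQ) : T_B := by
  intro K _ _ _ hK ε₁ c C₀ hε hε' hc hC₀
  obtain ⟨E, hE⟩ := a_ZK K
  have hE' : IsE K E := hE
  obtain ⟨hr, cK, hcK, hcA⟩ := h6 K hK
  obtain ⟨δ, B₁, hδ, hδ', hB₁, hSE⟩ := h2 K hK ε₁ hε hε'
  obtain ⟨B₂, hB₂, hDI⟩ := h3 K hK E ε₁ c C₀ hE' hε hε' hc hC₀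
  obtain ⟨B₃, hB₃, hBM⟩ := h4 K hK E ε₁ c C₀ hE' hε hε' hc hC₀
  obtain ⟨CX, BX, hCX, hBX, q₁, hX⟩ := norm_Xf_le h5 cK C₀ hcK hC₀
  refine ⟨B₁ + BX + B₂ + B₃, by positivity, fun η hη => ?_⟩
  set η₁ : ℝ := η / (3 * ((3 : ℝ) ^ B₁ * (1 + CX))) with hη₁
  have h3B : 0 < (3 : ℝ) ^ B₁ := Real.rpow_pos_of_pos (by norm_num) _
  have hη₁0 : 0 < η₁ := by positivity
  obtain ⟨q₂, hq₂⟩ := hSE η₁ hη₁0
  obtain ⟨q₃, hq₃⟩ := hDI (η / 3) (by positivity)
  obtain ⟨q₄, hq₄⟩ := hBM (η / 3) (by positivity)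
  obtain ⟨q₅, hq₅⟩ := log_large C₀ δ hδ
  refine ⟨max (max q₁ q₂) (max q₃ (max q₄ q₅)), fun q hq hqq α β u hα hβ hαβ => ?_⟩
  have hqa : q₁ ≤ q := le_trans (le_trans (le_max_left _ _) (le_max_left _ _)) hqq
  have hqb : q₂ ≤ q := le_trans (le_trans (le_max_right _ _) (le_max_left _ _)) hqq
  have hqc : q₃ ≤ q := le_trans (le_trans (le_max_left _ _) (le_max_right _ _)) hqq
  have hqd : q₄ ≤ q := le_trans (le_trans (le_max_left _ _)
    ((le_max_right _ _).trans (le_max_right _ _))) hqq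
  have hqe : q₅ ≤ q := le_trans (le_trans (le_max_right _ _)
    ((le_max_right _ _).trans (le_max_right _ _))) hqq
  obtain ⟨hl1, hl2⟩ := hq₅ q hqe
  have hX' := hX q hqa α β u hα hβ
  rw [← (hcA q hq).1] at hX'
  have hDI' := hq₃ q hq hqc α β u hα hβ hαβ
  have hBM' := hq₄ q hq hqd α β u hα hβ hαβ
  have hM1 : 1 ≤ Mq ε₁ q := by
    unfold Mq
    have hq1 : (1 : ℝ) ≤ q := by exact_mod_cast hq.one_lt.le
    exact Real.one_le_rpow hq1 (by linarith)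
  set M : ℝ := Mq ε₁ q with hM
  set Q : ℝ := cA K (qi K q) ^ 2 with hQ
  set s₁ : ℂ := 1 / 2 + α + u * I with hs₁
  set s₂ : ℂ := 1 / 2 + β - u * I with hs₂
  have hre1 : s₁.re = 1 / 2 + α.re := by simp [hs₁]
  have hre2 : s₂.re = 1 / 2 + β.re := by simp [hs₂]
  have him1 : s₁.im = α.im + u := by simp [hs₁]
  have him2 : s₂.im = β.im - u := by simp [hs₂]
  have hαδ : |α.re| ≤ δ := (Complex.abs_re_le_norm _).trans (hα.trans hl2)
  have hβδ : |β.re| ≤ δ := (Complex.abs_re_le_norm _).trans (hβ.trans hl2)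
  have hα1 : |α.im| ≤ 1 := (Complex.abs_im_le_norm _).trans (hα.trans (hl2.trans (by linarith)))
  have hβ1 : |β.im| ≤ 1 := (Complex.abs_im_le_norm _).trans (hβ.trans (hl2.trans (by linarith)))
  have hr1 : |s₁.re - 1 / 2| ≤ δ := by rw [hre1]; simpa using hαδ
  have hr2 : |s₂.re - 1 / 2| ≤ δ := by rw [hre2]; simpa using hβδ
  have hr3 : |(1 - s₂).re - 1 / 2| ≤ δ := by
    rw [Complex.sub_re, Complex.one_re, hre2]
    rw [show (1 - (1 / 2 + β.re) - 1 / 2 : ℝ) = -β.re by ring, abs_neg]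
    exact hβδ
  have hr4 : |(1 - s₁).re - 1 / 2| ≤ δ := by
    rw [Complex.sub_re, Complex.one_re, hre1]
    rw [show (1 - (1 / 2 + α.re) - 1 / 2 : ℝ) = -α.re by ring, abs_neg]
    exact hαδ
  have hi1 : |s₁.im| ≤ 1 + |u| := by
    rw [him1]
    exact (abs_add_le _ _).trans (by linarith)
  have hi2 : |s₂.im| ≤ 1 + |u| := by
    rw [him2]
    exact (abs_sub _ _).trans (by linarith)
  have hi3 : |(1 - s₂).im| = |s₂.im| := by
    rw [Complex.sub_im, Complex.one_im, zero_sub, abs_neg]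
  have hi4 : |(1 - s₁).im| = |s₁.im| := by
    rw [Complex.sub_im, Complex.one_im, zero_sub, abs_neg]
  have hu0 : 0 ≤ |u| := abs_nonneg u
  have hu1 : 1 ≤ 1 + |u| := by linarith
  have hpow : (1 + |s₁.im| + |s₂.im|) ^ B₁ ≤ (3 : ℝ) ^ B₁ * (1 + |u|) ^ B₁ := by
    rw [← Real.mul_rpow (by norm_num) (by linarith)]
    exact Real.rpow_le_rpow (by positivity) (by linarith) hB₁
  -- the functional equation
  obtain ⟨hfin, -⟩ := a_IE K q hq
  have hterm : ∀ χ ∈ Pr K (qi K q), Zx χ s₁ *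
      (starRingEnd ℂ) (Zx χ (1 / 2 + (starRingEnd ℂ) β + u * I)) *
        ((‖pol M (cu K M u) χ.ψ‖ ^ 2 : ℝ) : ℂ) =
      A2g Q s₁ s₂ χ.ψ * (pol M (cu K M u) χ.ψ *
          pol M (cu K M (-u)) (fun I => (starRingEnd ℂ) (χ.ψ I))) +
        Xf (cA K (qi K q)) s₁ s₂ * (A2g Q (1 - s₂) (1 - s₁) χ.ψ * (pol M (cu K M u) χ.ψ *
          pol M (cu K M (-u)) (fun I => (starRingEnd ℂ) (χ.ψ I)))) := by
    intro χ hχ
    have hχ' : χ.f = qi K q := hχ
    have hf : χ.f ≠ ⊤ := by rw [hχ']; exact qi_ne_top K q hq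
    have h7 := h1 K hr χ hf (Zx χ) (Zx_ent K χ hf) s₁ s₂
      (by linarith [neg_abs_le (s₁.re - 1 / 2)]) (by linarith [le_abs_self (s₁.re - 1 / 2)])
      (by linarith [neg_abs_le (s₂.re - 1 / 2)]) (by linarith [le_abs_self (s₂.re - 1 / 2)])
    have h8 : (starRingEnd ℂ) s₂ = 1 / 2 + (starRingEnd ℂ) β + u * I := by
      apply Complex.ext
      · simp [hs₂]
      · simp [hs₂]
    rw [h8, hχ'] at h7
    rw [h7, ← conj_pol, Complex.mul_conj, Complex.normSq_eq_norm_sq]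
    ring
  have hsum : (∑ᶠ χ ∈ Pr K (qi K q), Zx χ s₁ *
      (starRingEnd ℂ) (Zx χ (1 / 2 + (starRingEnd ℂ) β + u * I)) *
        ((‖pol M (cu K M u) χ.ψ‖ ^ 2 : ℝ) : ℂ)) =
      (∑ᶠ χ ∈ Pr K (qi K q), A2g Q s₁ s₂ χ.ψ * (pol M (cu K M u) χ.ψ *
          pol M (cu K M (-u)) (fun I => (starRingEnd ℂ) (χ.ψ I)))) +
        Xf (cA K (qi K q)) s₁ s₂ * ∑ᶠ χ ∈ Pr K (qi K q), A2g Q (1 - s₂) (1 - s₁) χ.ψ *
          (pol M (cu K M u) χ.ψ *
            pol M (cu K M (-u)) (fun I => (starRingEnd ℂ) (χ.ψ I))) := by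
    rw [finsum_mem_eq_finite_toFinset_sum _ hfin, finsum_mem_eq_finite_toFinset_sum _ hfin,
      finsum_mem_eq_finite_toFinset_sum _ hfin, Finset.mul_sum, ← Finset.sum_add_distrib]
    exact Finset.sum_congr rfl fun χ hχ => hterm χ (by simpa using hχ)
  rw [hsum]
  have k1 := hq₂ q hq hqb s₁ s₂ (cu K M u) (cu K M (-u)) hr1 hr2 (norm_cu_le hM1 u)
    (norm_cu_le hM1 (-u))
  have k2 := hq₂ q hq hqb (1 - s₂) (1 - s₁) (cu K M u) (cu K M (-u)) hr3 hr4 (norm_cu_le hM1 u)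
    (norm_cu_le hM1 (-u))
  rw [hi3, hi4] at k2
  rw [show (1 + |s₂.im| + |s₁.im| : ℝ) = 1 + |s₁.im| + |s₂.im| by ring] at k2
  set S₁ : ℂ := ∑ᶠ χ ∈ Pr K (qi K q), A2g Q s₁ s₂ χ.ψ * (pol M (cu K M u) χ.ψ *
          pol M (cu K M (-u)) (fun I => (starRingEnd ℂ) (χ.ψ I))) with hS₁
  set S₂ : ℂ := ∑ᶠ χ ∈ Pr K (qi K q), A2g Q (1 - s₂) (1 - s₁) χ.ψ *
          (pol M (cu K M u) χ.ψ *
            pol M (cu K M (-u)) (fun I => (starRingEnd ℂ) (χ.ψ I))) with hS₂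
  set X : ℂ := Xf (cA K (qi K q)) s₁ s₂ with hXX
  set D₁ : ℂ := Dg (qi K q) Q M s₁ s₂ (cu K M u) (cu K M (-u)) ⊤ ⊤ with hD₁
  set D₂ : ℂ := Dg (qi K q) Q M (1 - s₂) (1 - s₁) (cu K M u) (cu K M (-u)) ⊤ ⊤ with hD₂
  set m : ℂ := 1 / (α + β) * E (1 + (α + β)) * Sd K M α β -
    X * (1 / (α + β) * E (1 - (α + β)) * Sd K M (-β) (-α)) with hm
  set b : ℂ := Bm α β (Lq K q) (Real.log M) with hb
  set N : ℝ := (nc (qi K q) (qi K q) : ℝ) with hN
  have hN0 : 0 ≤ N := Nat.cast_nonneg _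
  have hNc : ((nc (qi K q) (qi K q) : ℕ) : ℂ) = (N : ℂ) := by
    rw [hN]
    push_cast
    rfl
  rw [hNc] at k1 k2 ⊢
  have e0 : (S₁ + X * S₂) - N * b = (S₁ - N * D₁) + X * (S₂ - N * D₂) +
      N * ((D₁ + X * D₂) - m) + N * (m - b) := by ring
  rw [e0]
  have t1 : ‖S₁ - N * D₁‖ ≤ η₁ * ((3 : ℝ) ^ B₁ * (1 + |u|) ^ B₁) * N := by
    refine k1.trans ?_
    gcongr
  have t2 : ‖X * (S₂ - N * D₂)‖ ≤ (CX * (1 + |u|) ^ BX) *
      (η₁ * ((3 : ℝ) ^ B₁ * (1 + |u|) ^ B₁) * N) := by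
    rw [norm_mul]
    refine mul_le_mul hX' (k2.trans ?_) (norm_nonneg _) (by positivity)
    gcongr
  have t3 : ‖(N : ℂ) * ((D₁ + X * D₂) - m)‖ ≤ N * (η / 3 * (1 + |u|) ^ B₂) := by
    rw [norm_mul, Complex.norm_real, Real.norm_eq_abs, abs_of_nonneg hN0]
    exact mul_le_mul_of_nonneg_left hDI' hN0
  have t4 : ‖(N : ℂ) * (m - b)‖ ≤ N * (η / 3 * (1 + |u|) ^ B₃) := by
    rw [norm_mul, Complex.norm_real, Real.norm_eq_abs, abs_of_nonneg hN0]
    exact mul_le_mul_of_nonneg_left hBM' hN0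
  have w1 : (1 + |u|) ^ B₁ ≤ (1 + |u|) ^ BX * (1 + |u|) ^ B₁ := by
    have := Real.one_le_rpow hu1 hBX
    have h7 : 0 ≤ (1 + |u|) ^ B₁ := by positivity
    nlinarith
  have w2 : (1 + |u|) ^ BX * (1 + |u|) ^ B₁ ≤ (1 + |u|) ^ (B₁ + BX + B₂ + B₃) := by
    rw [← Real.rpow_add (by linarith)]
    exact Real.rpow_le_rpow_of_exponent_le hu1 (by linarith)
  have w3 : (1 + |u|) ^ B₂ ≤ (1 + |u|) ^ (B₁ + BX + B₂ + B₃) :=
    Real.rpow_le_rpow_of_exponent_le hu1 (by linarith)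
  have w4 : (1 + |u|) ^ B₃ ≤ (1 + |u|) ^ (B₁ + BX + B₂ + B₃) :=
    Real.rpow_le_rpow_of_exponent_le hu1 (by linarith)
  set W : ℝ := (1 + |u|) ^ (B₁ + BX + B₂ + B₃) with hW
  have v1 : ‖S₁ - N * D₁‖ + ‖X * (S₂ - N * D₂)‖ ≤ η / 3 * W * N := by
    calc ‖S₁ - N * D₁‖ + ‖X * (S₂ - N * D₂)‖
        ≤ η₁ * ((3 : ℝ) ^ B₁ * (1 + |u|) ^ B₁) * N + (CX * (1 + |u|) ^ BX) *
          (η₁ * ((3 : ℝ) ^ B₁ * (1 + |u|) ^ B₁) * N) := add_le_add t1 t2
      _ ≤ η₁ * ((3 : ℝ) ^ B₁ * ((1 + |u|) ^ BX * (1 + |u|) ^ B₁)) * N + (CX * (1 + |u|) ^ BX) *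
          (η₁ * ((3 : ℝ) ^ B₁ * (1 + |u|) ^ B₁) * N) := by gcongr
      _ = η₁ * ((3 : ℝ) ^ B₁ * (1 + CX)) * ((1 + |u|) ^ BX * (1 + |u|) ^ B₁) * N := by ring
      _ = η / 3 * ((1 + |u|) ^ BX * (1 + |u|) ^ B₁) * N := by
          rw [hη₁]
          congr 2
          have : (3 : ℝ) ^ B₁ * (1 + CX) ≠ 0 := by positivity
          field_simp
      _ ≤ η / 3 * W * N := by gcongr
  have v3 : N * (η / 3 * (1 + |u|) ^ B₂) ≤ N * (η / 3 * W) := by gcongr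
  have v4 : N * (η / 3 * (1 + |u|) ^ B₃) ≤ N * (η / 3 * W) := by gcongr
  have n1 := norm_add_le ((S₁ - N * D₁) + X * (S₂ - N * D₂) + N * ((D₁ + X * D₂) - m))
    (N * (m - b))
  have n2 := norm_add_le ((S₁ - N * D₁) + X * (S₂ - N * D₂)) (N * ((D₁ + X * D₂) - m))
  have n3 := norm_add_le (S₁ - N * D₁) (X * (S₂ - N * D₂))
  have e9 : η * W * N = η / 3 * W * N + N * (η / 3 * W) + N * (η / 3 * W) := by ring
  rw [e9]
  linarith

end Pool.Agent.H91.CRZ
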