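import Pool.Agent.H91.CRZ.LE0
import Pool.Agent.H37.CA.All

/-!
Board crz_modules, row LE: the mean square on the left line.
-/

set_option autoImplicit false

open NumberField NumberField.InfinitePlace Complex Filter Topology MeasureTheory

namespace Pool.Agent.H91.CRZ

open Pool.Agent.H28.RC Pool.Agent.H25.HK Pool.Agent.H37.CV
open Pool.Agent.H65.CRZ

/-! ### The limits -/

/-- the constant as a polynomial -/
theorem le_cc (R lam x : ℝ) :
    k0 R x + (lam + lam) * k1 R x + lam * lam * k2 R x = cc R lam x := by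
  unfold Pool.Agent.H65.CRZ.k0 k1 k2 cc
  dsimp only
  ring

theorem le_k {R x₀ : ℝ} (hx₀ : x₀ ≠ 0) :
    ContinuousAt (k0 R) x₀ ∧ ContinuousAt (k1 R) x₀ ∧ ContinuousAt (k2 R) x₀ := by
  have h1 : ContinuousAt (fun x : ℝ => 1 / x) x₀ := continuousAt_const.div continuousAt_id hx₀
  refine ⟨?_, ?_, ?_⟩
  · unfold Pool.Agent.H65.CRZ.k0
    exact h1.mul (by fun_prop)
  · unfold k1
    exact h1.mul (by fun_prop)
  · unfold k2
    exact h1.mul (by fun_prop)

theorem le_poly (R lam x₀ δ : ℝ) (hx₀ : 0 < x₀) (hδ : 0 < δ) :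
    ∃ r : ℝ, 0 < r ∧ ∀ (x : ℝ) (l : ℂ), |x - x₀| < r → ‖l - lam‖ < r →
      ‖((k0 R x : ℂ) + (l + (starRingEnd ℂ) l) * k1 R x + l * (starRingEnd ℂ) l * k2 R x) -
        cc R lam x₀‖ < δ := by
  obtain ⟨c0, c1, c2⟩ := le_k (R := R) hx₀.ne'
  have hc : ContinuousAt (fun p : ℝ × ℂ => ((k0 R p.1 : ℝ) : ℂ) +
      (p.2 + (starRingEnd ℂ) p.2) * ((k1 R p.1 : ℝ) : ℂ) +
        p.2 * (starRingEnd ℂ) p.2 * ((k2 R p.1 : ℝ) : ℂ)) (x₀, (lam : ℂ)) := by
    have d1 : ContinuousAt (fun p : ℝ × ℂ => p.1) (x₀, (lam : ℂ)) := continuousAt_fst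
    have d2 : ContinuousAt (fun p : ℝ × ℂ => p.2) (x₀, (lam : ℂ)) := continuousAt_snd
    have d3 : ContinuousAt (fun p : ℝ × ℂ => (starRingEnd ℂ) p.2) (x₀, (lam : ℂ)) :=
      Complex.continuous_conj.continuousAt.comp d2
    have e0 : ContinuousAt (fun p : ℝ × ℂ => ((k0 R p.1 : ℝ) : ℂ)) (x₀, (lam : ℂ)) :=
      Complex.continuous_ofReal.continuousAt.comp (ContinuousAt.comp (f := fun p : ℝ × ℂ => p.1)
        (x := (x₀, (lam : ℂ))) c0 d1)
    have e1 : ContinuousAt (fun p : ℝ × ℂ => ((k1 R p.1 : ℝ) : ℂ)) (x₀, (lam : ℂ)) :=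
      Complex.continuous_ofReal.continuousAt.comp (ContinuousAt.comp (f := fun p : ℝ × ℂ => p.1)
        (x := (x₀, (lam : ℂ))) c1 d1)
    have e2 : ContinuousAt (fun p : ℝ × ℂ => ((k2 R p.1 : ℝ) : ℂ)) (x₀, (lam : ℂ)) :=
      Complex.continuous_ofReal.continuousAt.comp (ContinuousAt.comp (f := fun p : ℝ × ℂ => p.1)
        (x := (x₀, (lam : ℂ))) c2 d1)
    exact (e0.add ((d2.add d3).mul e1)).add ((d2.mul d3).mul e2)
  obtain ⟨r, hr, h⟩ := Metric.continuousAt_iff.1 hc δ hδ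
  refine ⟨r, hr, fun x l hx hl => ?_⟩
  have h1 : dist (x, l) (x₀, (lam : ℂ)) < r := by
    rw [Prod.dist_eq]
    refine max_lt ?_ ?_
    · rw [Real.dist_eq]
      exact hx
    · rw [dist_eq_norm]
      exact hl
  have h2 := h h1
  rw [dist_eq_norm] at h2
  refine lt_of_eq_of_lt ?_ h2
  congr 2
  rw [← le_cc]
  push_cast
  rw [Complex.conj_ofReal]

/-- the logarithm of `q` is large -/
theorem le_log (X : ℝ) : ∃ q₁ : ℕ, ∀ q : ℕ, q₁ ≤ q → X ≤ Real.log q := by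
  refine ⟨⌈Real.exp X⌉₊, fun q hq => ?_⟩
  have h1 : Real.exp X ≤ q := (Nat.le_ceil _).trans (by exact_mod_cast hq)
  have h2 := Real.log_le_log (Real.exp_pos X) h1
  rwa [Real.log_exp] at h2

/-- the parameters `log q`, `L` -/
theorem le_Lq (K : Type) [Field K] [NumberField K] (c : ℝ) (hc : 0 < c)
    (hcA : ∀ q : ℕ, q.Prime → cA K (qi K q) = c * q ∧ nm (qi K q) = (q : ℝ) ^ 2) :
    ∃ q₁ : ℕ, ∀ q : ℕ, q.Prime → q₁ ≤ q → 1 ≤ Real.log q ∧ Real.log q ≤ Lq K q ∧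
      Lq K q ≤ 4 * Real.log q ∧ Lq K q = 2 * Real.log c + 2 * Real.log q ∧
      2 * |Real.log c| ≤ Real.log q := by
  obtain ⟨q₁, h1⟩ := le_log (1 + 2 * |Real.log c|)
  refine ⟨q₁, fun q hq hqq => ?_⟩
  have h2 := h1 q hqq
  have h3 := abs_nonneg (Real.log c)
  have h4 := le_abs_self (Real.log c)
  have h5 := neg_abs_le (Real.log c)
  have hq0 : (0 : ℝ) < q := by exact_mod_cast hq.pos
  have h6 : Lq K q = 2 * Real.log c + 2 * Real.log q := by
    unfold Lq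
    rw [(hcA q hq).1, Real.log_mul hc.ne' hq0.ne']
    ring
  refine ⟨by linarith, ?_, ?_, h6, by linarith⟩
  · rw [h6]
    linarith
  · rw [h6]
    linarith

/-- the coefficient of the derivative -/
theorem le_cof (lam A C : ℝ) (s : ℂ) (hlam1 : 1 < lam) (hlam2 : lam < 2) (hC : 0 < C)
    (hd : ‖ld Gamma s‖ ≤ C) (hA : 4 * C < 2 * Real.log A) :
    ‖cof lam A s * (2 * Real.log A : ℝ) - lam‖ ≤ 8 * C / (2 * Real.log A) := by
  unfold Pool.Agent.H65.CRZ.cof
  set L : ℝ := 2 * Real.log A with hL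
  set d : ℂ := ld Gamma s with hdd
  have hL0 : 0 < L := by linarith
  have hlam0 : 0 < lam := by linarith
  have h1 : L / 2 ≤ L / lam := div_le_div_of_nonneg_left hL0.le hlam0 hlam2.le
  have h2 : L / 4 ≤ ‖((L / lam : ℝ) : ℂ) + d‖ := by
    have h3 := norm_sub_norm_le ((L / lam : ℝ) : ℂ) (-d)
    rw [sub_neg_eq_add, norm_neg, Complex.norm_real, Real.norm_eq_abs,
      abs_of_pos (by positivity)] at h3
    linarith
  have h3 : ((L / lam : ℝ) : ℂ) + d ≠ 0 := by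
    intro h
    rw [h, norm_zero] at h2
    linarith
  have hlc : (lam : ℂ) ≠ 0 := by exact_mod_cast hlam0.ne'
  have h4 : 1 / (((L / lam : ℝ) : ℂ) + d) * (L : ℝ) - lam =
      -(lam * d) / (((L / lam : ℝ) : ℂ) + d) := by
    rw [eq_div_iff h3, sub_mul]
    rw [show 1 / (((L / lam : ℝ) : ℂ) + d) * (L : ℝ) * (((L / lam : ℝ) : ℂ) + d) = L by
      field_simp]
    push_cast
    field_simp
    ring
  rw [h4, norm_div, norm_neg, norm_mul, Complex.norm_real, Real.norm_eq_abs, abs_of_pos hlam0]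
  rw [div_le_div_iff₀ (by linarith) hL0]
  have h5 : lam * ‖d‖ ≤ 2 * C := mul_le_mul hlam2.le hd (norm_nonneg _) (by norm_num)
  calc lam * ‖d‖ * L ≤ 2 * C * L := by gcongr
    _ = 8 * C * (L / 4) := by ring
    _ ≤ 8 * C * ‖((L / lam : ℝ) : ℂ) + d‖ := by gcongr

/-- the two points on the circle -/
theorem le_pts (R : ℝ) (hR : 0 < R) (φ ψ : ℝ) :
    ‖(-R + R / 2 * cexp (φ * I) : ℂ) + R‖ ≤ R / 2 ∧ ‖(-R + R / 2 * cexp (φ * I) : ℂ)‖ ≤ 2 * R ∧
    ‖(-R + R / 2 * cexp (-(ψ * I)) : ℂ) + R‖ ≤ R / 2 ∧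
    ‖(-R + R / 2 * cexp (-(ψ * I)) : ℂ)‖ ≤ 2 * R ∧
    R ≤ ‖(-R + R / 2 * cexp (φ * I) : ℂ) + (-R + R / 2 * cexp (-(ψ * I)))‖ := by
  have hn1 : ‖(R / 2 * cexp (φ * I) : ℂ)‖ = R / 2 := by
    rw [norm_mul, norm_div, Complex.norm_exp_ofReal_mul_I, Complex.norm_real,
      Real.norm_eq_abs, abs_of_pos hR, Complex.norm_ofNat, mul_one]
  have hn2 : ‖(R / 2 * cexp (-(ψ * I)) : ℂ)‖ = R / 2 := by
    have : (-(ψ * I) : ℂ) = ((-ψ : ℝ) : ℂ) * I := by push_cast; ring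
    rw [this, norm_mul, norm_div, Complex.norm_exp_ofReal_mul_I, Complex.norm_real,
      Real.norm_eq_abs, abs_of_pos hR, Complex.norm_ofNat, mul_one]
  have hR' : ‖(-R : ℂ)‖ = R := by
    rw [norm_neg, Complex.norm_real, Real.norm_eq_abs, abs_of_pos hR]
  refine ⟨?_, ?_, ?_, ?_, ?_⟩
  · rw [show (-R + R / 2 * cexp (φ * I) : ℂ) + R = R / 2 * cexp (φ * I) by ring, hn1]
  · refine (norm_add_le _ _).trans ?_
    rw [hn1, hR']
    linarith
  · rw [show (-R + R / 2 * cexp (-(ψ * I)) : ℂ) + R = R / 2 * cexp (-(ψ * I)) by ring, hn2]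
  · refine (norm_add_le _ _).trans ?_
    rw [hn2, hR']
    linarith
  · have h1 : (-R + R / 2 * cexp (φ * I) : ℂ) + (-R + R / 2 * cexp (-(ψ * I))) =
        -((2 * R : ℝ) : ℂ) - -(R / 2 * cexp (φ * I) + R / 2 * cexp (-(ψ * I))) := by
      push_cast
      ring
    have h2 := norm_sub_norm_le (-((2 * R : ℝ) : ℂ))
      (-(R / 2 * cexp (φ * I) + R / 2 * cexp (-(ψ * I)) : ℂ))
    have h3 := norm_add_le (R / 2 * cexp (φ * I) : ℂ) (R / 2 * cexp (-(ψ * I)))
    rw [norm_neg, norm_neg, Complex.norm_real, Real.norm_eq_abs, abs_of_pos (by positivity)] at h2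
    rw [h1]
    rw [hn1, hn2] at h3
    linarith

theorem pf_LE (h1 : T_B) (h2 : T_BB) (h3 : T_DB) (h4 : T_G2) (h5 : T_LF) (h6 : T_CQ) : T_LE := by
  intro K _ _ _ hK lam R ε₁ δ T hlam1 hlam2 hR hε hε' hδ hT
  obtain ⟨-, c, hc, hcA⟩ := h6 K hK
  obtain ⟨CL, q₁, -, hLF⟩ := h5 K hK
  obtain ⟨B, hB, hBη⟩ := h1 K hK ε₁ (R / 4) (2 * R) hε hε' (by positivity) (by positivity)
  have hκ : 0 < (1 - 2 * ε₁) / 4 := by linarith
  obtain ⟨CB, hCB, hBB⟩ := h2 R ((1 - 2 * ε₁) / 4) hR hκ (by linarith)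
  obtain ⟨CG, hCG, hG⟩ := h4.2 1 T
  set x₀ : ℝ := (1 - 2 * ε₁) / 2 with hx₀d
  have hx₀ : 0 < x₀ := by linarith
  set Λ : ℝ := cc R lam x₀ with hΛ
  obtain ⟨r, hr, hpoly⟩ := le_poly R lam x₀ (δ / 4) hx₀ (by positivity)
  have hTB : 0 < (1 + T) ^ B := Real.rpow_pos_of_pos (by linarith) _
  set η : ℝ := δ / (4 * ((1 + T) ^ B * (1 + 8 / R) ^ 2)) with hη
  have hη0 : 0 < η := by positivity
  obtain ⟨q₂, hq₂⟩ := hBη η hη0
  obtain ⟨q₃, hq₃⟩ := le_Lq K c hc hcA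
  obtain ⟨q₄, hq₄⟩ := le_log (1 + |Real.log c| / r + 8 * CG / r + 8 * CG + 4 * R)
  set ε' : ℝ := (δ / 2) / (|Λ| + δ) with hε'd
  have hΛδ : 0 < |Λ| + δ := by positivity
  have hε'0 : 0 < ε' := by positivity
  obtain ⟨q₅, hq₅⟩ := Pool.Agent.H37.CA.a_PNC K ε' hε'0
  refine ⟨max (max q₁ q₂) (max q₃ (max q₄ q₅)), fun q hq hqq t ht => ?_⟩
  have hqa : q₁ ≤ q := le_trans (le_trans (le_max_left _ _) (le_max_left _ _)) hqq
  have hqb : q₂ ≤ q := le_trans (le_trans (le_max_right _ _) (le_max_left _ _)) hqq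
  have hqc : q₃ ≤ q := le_trans (le_trans (le_max_left _ _) (le_max_right _ _)) hqq
  have hqd : q₄ ≤ q := le_trans (le_trans (le_max_left _ _)
    ((le_max_right _ _).trans (le_max_right _ _))) hqq
  have hqe : q₅ ≤ q := le_trans (le_trans (le_max_right _ _)
    ((le_max_right _ _).trans (le_max_right _ _))) hqq
  obtain ⟨l1, l2, l3, l4, l5⟩ := hq₃ q hq hqc
  have l6 := hq₄ q hqd
  have hPNC := hq₅ q hq hqe
  have hq0 : (0 : ℝ) < q := by exact_mod_cast hq.pos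
  have hlogc := abs_nonneg (Real.log c)
  have hd1 : 0 ≤ |Real.log c| / r := by positivity
  have hd2 : 0 ≤ 8 * CG / r := by positivity
  set L : ℝ := Lq K q with hL
  have hL0 : 0 < L := by linarith
  have hlogq : 0 < Real.log q := by linarith
  obtain ⟨hfin, -⟩ := a_IE K q hq
  set N : ℝ := (nc (qi K q) (qi K q) : ℝ) with hN
  have hN0 : 0 < N := by
    have := (a_OR K (qi K q) (qi K q) (qi_ne_bot K q hq) le_rfl).2.1
    rw [hN]
    exact_mod_cast this
  have hNc : ((nc (qi K q) (qi K q) : ℕ) : ℂ) = (N : ℂ) := by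
    rw [hN]
    push_cast
    rfl
  set M : ℝ := Mq ε₁ q with hM
  have hl : Real.log M = (1 - 2 * ε₁) * Real.log q := by
    rw [hM]
    unfold Mq
    rw [Real.log_rpow hq0]
  set x : ℝ := Real.log M / L with hxd
  have hx1 : (1 - 2 * ε₁) / 4 * L ≤ Real.log M := by
    rw [hl]
    have h7 := mul_le_mul_of_nonneg_left l3 hκ.le
    linarith
  have hx2 : Real.log M ≤ L := by
    rw [hl]
    have h7 : 0 ≤ 2 * ε₁ * Real.log q := by positivity
    linarith
  have hx0 : 0 < x := by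
    have : 0 < Real.log M := lt_of_lt_of_le (by positivity) hx1
    positivity
  have hxx : |x - x₀| < r := by
    have h6' : x * L = (1 - 2 * ε₁) * Real.log q := by
      rw [hxd, div_mul_cancel₀ _ hL0.ne', hl]
    have h7 : x - x₀ = -((1 - 2 * ε₁) * Real.log c) / L := by
      rw [eq_div_iff hL0.ne', sub_mul, h6', hx₀d, l4]
      ring
    rw [h7, abs_div, abs_neg, abs_mul, abs_of_pos hL0, abs_of_pos (by linarith : 0 < 1 - 2 * ε₁),
      div_lt_iff₀ hL0]
    have h8 : |Real.log c| < r * L := by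
      have h9 : |Real.log c| / r < L := by linarith
      rwa [div_lt_iff₀ hr, mul_comm] at h9
    nlinarith
  set s : ℂ := (sg0 K R q : ℂ) + t * I with hs
  have hsre : s.re = 1 / 2 - R / L := by
    rw [hs]
    simp [sg0, hL]
  have hsim : s.im = t := by
    rw [hs]
    simp
  have hRL : R / L ≤ 1 / 4 := by
    rw [div_le_iff₀ hL0]
    linarith
  have hRL0 : 0 < R / L := by positivity
  have hdG := (hG s (by rw [hsre]; linarith) (by rw [hsre]; linarith) (by rw [hsim]; exact ht)).1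
  have hLA : L = 2 * Real.log (cA K (qi K q)) := by rw [hL, Lq]
  have hcof := le_cof lam (cA K (qi K q)) CG s hlam1 hlam2 hCG hdG (by rw [← hLA]; linarith)
  rw [← hLA] at hcof
  set cf : ℂ := Pool.Agent.H65.CRZ.cof lam (cA K (qi K q)) s with hcf
  have hcL : ‖cf * L - lam‖ < r := by
    refine lt_of_le_of_lt hcof ?_
    rw [div_lt_iff₀ hL0]
    have h9 : 8 * CG / r < L := by linarith
    rw [div_lt_iff₀ hr] at h9
    linarith
  have hcL4 : ‖cf * L‖ ≤ 4 := by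
    have h7 := norm_le_norm_add_norm_sub' (cf * L) (lam : ℂ)
    rw [Complex.norm_real, Real.norm_eq_abs, abs_of_pos (by linarith)] at h7
    have h8 : 8 * CG / L ≤ 1 := by
      rw [div_le_one hL0]
      linarith
    linarith
  set X : Finset (RCC K) := hfin.toFinset with hX
  have hkey := le_core h3 X (fun χ => Zx χ) (fun χ hχ => (hLF q hq hqa χ (by simpa [hX] using hχ)).1.1)
    (fun χ => ml M (sg0 K R q) χ.ψ s) R L x (η * (1 + |t|) ^ B * N) N hR hL0 hx0 s cf (by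
      intro φ ψ
      obtain ⟨p1, p2, p3, p4, p5⟩ := le_pts R hR φ ψ
      set a : ℂ := -R + R / 2 * cexp (φ * I) with ha
      set b : ℂ := -R + R / 2 * cexp (-(ψ * I)) with hb
      have hLc : (L : ℂ) ≠ 0 := by exact_mod_cast hL0.ne'
      have hLn : ‖(L : ℂ)‖ = L := by
        rw [Complex.norm_real, Real.norm_eq_abs, abs_of_pos hL0]
      have e1 : ‖a / L‖ ≤ 2 * R / Real.log q := by
        rw [norm_div, hLn]
        exact div_le_div₀ (by positivity) p2 hlogq l2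
      have e2 : ‖b / L‖ ≤ 2 * R / Real.log q := by
        rw [norm_div, hLn]
        exact div_le_div₀ (by positivity) p4 hlogq l2
      have e3 : R / 4 / Real.log q ≤ ‖a / L + b / L‖ := by
        rw [← add_div, norm_div, hLn, div_div]
        exact div_le_div₀ (norm_nonneg _) p5 hL0 l3
      have key := hq₂ q hq hqb (a / L) (b / L) t e1 e2 e3
      rw [← hL, ← hM, (hBB L (Real.log M) a b hL0 hx1 hx2 p1 p3).1, hNc] at key
      refine le_trans (le_of_eq ?_) key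
      congr 2
      rw [finsum_mem_eq_finite_toFinset_sum _ hfin]
      refine Finset.sum_congr rfl fun χ _ => ?_
      have f1 : (1 / 2 + a / L + t * I : ℂ) = s + (R / (2 * L) : ℝ) * cexp (φ * I) := by
        rw [ha, hs]
        unfold sg0
        rw [← hL]
        push_cast
        field_simp
        ring
      have f2 : (1 / 2 + (starRingEnd ℂ) (b / L) + t * I : ℂ) =
          s + (R / (2 * L) : ℝ) * cexp (ψ * I) := by
        have f3 : (starRingEnd ℂ) (b / L) = (-R + R / 2 * cexp (ψ * I)) / L := by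
          rw [hb, map_div₀, map_add, map_neg, map_mul, ← Complex.exp_conj, map_neg, map_mul,
            Complex.conj_I, map_div₀, Complex.conj_ofReal, Complex.conj_ofReal,
            Complex.conj_ofReal, Complex.conj_ofNat, mul_neg, neg_neg]
        rw [f3, hs]
        unfold sg0
        rw [← hL]
        push_cast
        field_simp
        ring
      have f4 : pol M (cu K M t) χ.ψ = ml M (sg0 K R q) χ.ψ s := by
        unfold pol ml cu
        refine Finset.sum_congr rfl fun S _ => ?_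
        have h7 : (s + 1 / 2 - (sg0 K R q : ℂ)) = 1 / 2 + t * I := by
          rw [hs]
          ring
        rw [h7]
        ring
      rw [f1, f2, f4])
  have hsum : (∑ᶠ χ ∈ Pr K (qi K q), ‖fx lam R ε₁ q χ (sg0 K R q + t * I)‖ ^ 2) =
      ∑ χ ∈ X, ‖(Zx χ s + cf * deriv (Zx χ) s) * ml M (sg0 K R q) χ.ψ s‖ ^ 2 := by
    rw [finsum_mem_eq_finite_toFinset_sum _ hfin]
    rfl
  rw [hsum]
  set W : ℝ := ∑ χ ∈ X, ‖(Zx χ s + cf * deriv (Zx χ) s) * ml M (sg0 K R q) χ.ψ s‖ ^ 2 with hW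
  have hW0 : 0 ≤ W := Finset.sum_nonneg fun _ _ => by positivity
  have hp := (hpoly x (cf * L) hxx hcL).le
  set P : ℂ := (Pool.Agent.H65.CRZ.k0 R x : ℂ) + (cf * L + (starRingEnd ℂ) (cf * L)) * k1 R x +
    cf * L * (starRingEnd ℂ) (cf * L) * k2 R x with hP
  have hkey2 : ‖(W : ℂ) - N * P‖ ≤ δ / 4 * N := by
    refine hkey.trans ?_
    have g1 : (1 + |t|) ^ B ≤ (1 + T) ^ B :=
      Real.rpow_le_rpow (by positivity) (by linarith) hB
    have g2 : (1 + 2 * ‖cf * L‖ / R) ^ 2 ≤ (1 + 8 / R) ^ 2 := by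
      have : 2 * ‖cf * L‖ / R ≤ 8 / R := by
        gcongr
        linarith
      gcongr
    calc η * (1 + |t|) ^ B * N * (1 + 2 * ‖cf * L‖ / R) ^ 2
        ≤ η * (1 + T) ^ B * N * (1 + 8 / R) ^ 2 := by gcongr
      _ = δ / 4 * N := by
        rw [hη]
        field_simp
  have hkey3 : ‖(W : ℂ) - N * Λ‖ ≤ δ / 2 * N := by
    have g1 : (W : ℂ) - N * Λ = ((W : ℂ) - N * P) + N * (P - Λ) := by ring
    rw [g1]
    refine (norm_add_le _ _).trans ?_
    have g2 : ‖(N : ℂ) * (P - Λ)‖ ≤ N * (δ / 4) := by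
      rw [norm_mul, Complex.norm_real, Real.norm_eq_abs, abs_of_pos hN0]
      exact mul_le_mul_of_nonneg_left hp hN0.le
    linarith
  have hkey4 : W ≤ N * (Λ + δ / 2) := by
    rw [← Complex.ofReal_mul, ← Complex.ofReal_sub, Complex.norm_real, Real.norm_eq_abs] at hkey3
    have := le_abs_self (W - N * Λ)
    linarith
  have hΛ2 : 0 ≤ Λ + δ / 2 := by
    by_contra h
    have : N * (Λ + δ / 2) < 0 := mul_neg_of_pos_of_neg hN0 (not_le.1 h)
    linarith
  have hε'1 : Λ + δ / 2 ≤ (1 - ε') * (Λ + δ) := by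
    have g1 : ε' * (Λ + δ) ≤ ε' * (|Λ| + δ) :=
      mul_le_mul_of_nonneg_left (by linarith [le_abs_self Λ]) hε'0.le
    have g2 : ε' * (|Λ| + δ) = δ / 2 := by
      rw [hε'd]
      field_simp
    linarith
  calc W ≤ N * (Λ + δ / 2) := hkey4
    _ ≤ N * ((1 - ε') * (Λ + δ)) := mul_le_mul_of_nonneg_left hε'1 hN0.le
    _ = ((1 - ε') * N) * (Λ + δ) := by ring
    _ ≤ ((Pr K (qi K q)).ncard : ℝ) * (Λ + δ) :=
        mul_le_mul_of_nonneg_right hPNC (by linarith)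
    _ = (Λ + δ) * (Pr K (qi K q)).ncard := mul_comm _ _

end Pool.Agent.H91.CRZ
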