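import Pool.Agent.H65.CRZ.TD
import Pool.Agent.H99.CRZ.DB

/-!
Board crz_modules, row LE: Cauchy's formula for a family and limits.
-/

set_option autoImplicit false

open Complex Filter Topology MeasureTheory Metric

namespace Pool.Agent.H91.CRZ

open Pool.Agent.H65.CRZ

/-! ### Double integrals -/

theorem le_cont {F : ℝ × ℝ → ℂ} (hF : Continuous F) (a b : ℝ) :
    Continuous (fun φ : ℝ => ∫ ψ in a..b, F (φ, ψ)) :=
  intervalIntegral.continuous_parametric_intervalIntegral_of_continuous'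
    (f := fun φ ψ => F (φ, ψ)) hF a b

theorem le_sub {F G : ℝ × ℝ → ℂ} (hF : Continuous F) (hG : Continuous G) (κ a b : ℝ)
    (hab : a ≤ b) (h : ∀ p, ‖F p - G p‖ ≤ κ) :
    ‖(∫ φ in a..b, ∫ ψ in a..b, F (φ, ψ)) - ∫ φ in a..b, ∫ ψ in a..b, G (φ, ψ)‖ ≤
      κ * (b - a) ^ 2 := by
  rw [← intervalIntegral.integral_sub ((le_cont hF a b).intervalIntegrable _ _)
    ((le_cont hG a b).intervalIntegrable _ _)]
  have h1 : ∀ φ : ℝ, ‖(∫ ψ in a..b, F (φ, ψ)) - ∫ ψ in a..b, G (φ, ψ)‖ ≤ κ * (b - a) := by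
    intro φ
    have c1 : Continuous fun ψ : ℝ => ((φ, ψ) : ℝ × ℝ) := by fun_prop
    have c2 : Continuous fun ψ : ℝ => F (φ, ψ) := hF.comp c1
    have c3 : Continuous fun ψ : ℝ => G (φ, ψ) := hG.comp c1
    rw [← intervalIntegral.integral_sub (c2.intervalIntegrable _ _)
      (c3.intervalIntegrable _ _)]
    have h2 := intervalIntegral.norm_integral_le_of_norm_le_const (a := a) (b := b)
      (f := fun ψ => F (φ, ψ) - G (φ, ψ)) (C := κ) (fun ψ _ => h (φ, ψ))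
    rwa [abs_of_nonneg (by linarith : 0 ≤ b - a)] at h2
  have h2 := intervalIntegral.norm_integral_le_of_norm_le_const (a := a) (b := b)
    (f := fun φ => (∫ ψ in a..b, F (φ, ψ)) - ∫ ψ in a..b, G (φ, ψ)) (C := κ * (b - a))
    (fun φ _ => h1 φ)
  rw [abs_of_nonneg (by linarith : 0 ≤ b - a)] at h2
  refine h2.trans (le_of_eq ?_)
  ring

theorem le_sq {ι : Type*} (X : Finset ι) (g : ι → ℝ → ℂ) (hg : ∀ i ∈ X, Continuous (g i))
    (a b : ℝ) :
    ((∑ i ∈ X, ‖∫ φ in a..b, g i φ‖ ^ 2 : ℝ) : ℂ) =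
      ∫ φ in a..b, ∫ ψ in a..b, ∑ i ∈ X, g i φ * (starRingEnd ℂ) (g i ψ) := by
  have h1 : ∀ φ : ℝ, ∫ ψ in a..b, ∑ i ∈ X, g i φ * (starRingEnd ℂ) (g i ψ) =
      ∑ i ∈ X, g i φ * (starRingEnd ℂ) (∫ ψ in a..b, g i ψ) := by
    intro φ
    rw [intervalIntegral.integral_finsetSum]
    · refine Finset.sum_congr rfl fun i _ => ?_
      rw [intervalIntegral.integral_const_mul, intervalIntegral.intervalIntegral_conj]
    · intro i hi
      exact (continuous_const.mul (Complex.continuous_conj.comp (hg i hi))).intervalIntegrable _ _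
  simp only [h1]
  rw [intervalIntegral.integral_finsetSum]
  · rw [Complex.ofReal_sum]
    refine Finset.sum_congr rfl fun i _ => ?_
    rw [intervalIntegral.integral_mul_const, Complex.mul_conj, Complex.normSq_eq_norm_sq]
  · intro i hi
    exact ((hg i hi).mul continuous_const).intervalIntegrable _ _

/-- Cauchy's formula for the mean square of a family -/
theorem le_core {ι : Type*} (h3 : T_DB) (X : Finset ι) (Z : ι → ℂ → ℂ)
    (hZ : ∀ i ∈ X, Differentiable ℂ (Z i)) (m : ι → ℂ) (R L x κ N : ℝ) (hR : 0 < R) (hL : 0 < L)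
    (hx : 0 < x) (s cf : ℂ)
    (hB : ∀ φ ψ : ℝ, ‖(∑ i ∈ X, Z i (s + (R / (2 * L) : ℝ) * cexp (φ * I)) *
        (starRingEnd ℂ) (Z i (s + (R / (2 * L) : ℝ) * cexp (ψ * I))) * ((‖m i‖ ^ 2 : ℝ) : ℂ)) -
      N * b0 (-R + R / 2 * cexp (φ * I)) (-R + R / 2 * cexp (-(ψ * I))) x‖ ≤ κ) :
    ‖((∑ i ∈ X, ‖(Z i s + cf * deriv (Z i) s) * m i‖ ^ 2 : ℝ) : ℂ) -
        N * (k0 R x + (cf * L + (starRingEnd ℂ) (cf * L)) * k1 R x +
          cf * L * (starRingEnd ℂ) (cf * L) * k2 R x)‖ ≤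
      κ * (1 + 2 * ‖cf * L‖ / R) ^ 2 := by
  have hρ : 0 < R / (2 * L) := by positivity
  have hRc : (R : ℂ) ≠ 0 := by exact_mod_cast hR.ne'
  have hLc : (L : ℂ) ≠ 0 := by exact_mod_cast hL.ne'
  set ρ : ℝ := R / (2 * L) with hρd
  set g : ι → ℝ → ℂ := fun i φ => (Z i (s + ρ * cexp (φ * I)) * m i) *
    (1 + cf / (ρ * cexp (φ * I))) with hg
  have hexp : ∀ φ : ℝ, (ρ : ℂ) * cexp (φ * I) ≠ 0 := fun φ =>
    mul_ne_zero (by exact_mod_cast hρ.ne') (Complex.exp_ne_zero _)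
  have hcw : Continuous fun φ : ℝ => (1 + cf / (ρ * cexp (φ * I)) : ℂ) := by
    refine continuous_const.add (continuous_const.div (by fun_prop) hexp)
  have hcg : ∀ i ∈ X, Continuous (g i) := by
    intro i hi
    refine Continuous.mul (Continuous.mul ((hZ i hi).continuous.comp (by fun_prop))
      continuous_const) hcw
  have hint : ∀ i ∈ X, ∫ φ in (0 : ℝ)..(2 * Real.pi), g i φ =
      (2 * Real.pi : ℝ) * ((Z i s + cf * deriv (Z i) s) * m i) := by
    intro i hi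
    have h7 := Pool.Agent.H99.CRZ.db_one isOpen_univ (c := s) hρ (h := Z i)
      (Set.subset_univ _) (hZ i hi).differentiableOn cf
    have h8 : (fun φ : ℝ => g i φ) = fun φ : ℝ => (Z i (s + ρ * cexp (φ * I)) *
        (1 + cf / (ρ * cexp (φ * I)))) * m i := by
      funext φ
      rw [hg]
      ring
    rw [h8, intervalIntegral.integral_mul_const, h7]
    push_cast
    ring
  have hsq := le_sq X g hcg 0 (2 * Real.pi)
  have hlhs : ((∑ i ∈ X, ‖∫ φ in (0 : ℝ)..(2 * Real.pi), g i φ‖ ^ 2 : ℝ) : ℂ) =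
      ((2 * Real.pi) ^ 2 : ℝ) * ((∑ i ∈ X, ‖(Z i s + cf * deriv (Z i) s) * m i‖ ^ 2 : ℝ) : ℂ) := by
    rw [← Complex.ofReal_mul, Finset.mul_sum]
    congr 1
    refine Finset.sum_congr rfl fun i hi => ?_
    rw [hint i hi, norm_mul, mul_pow, Complex.norm_real, Real.norm_eq_abs, sq_abs]
  set l₁ : ℂ := cf * L with hl₁
  set l₂ : ℂ := (starRingEnd ℂ) (cf * L) with hl₂
  obtain ⟨hbc, hbi⟩ := h3 R x l₁ l₂ hR hx
  set w₁ : ℝ → ℂ := fun φ => 1 + l₁ / (R / 2 * cexp (φ * I)) with hw₁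
  set w₂ : ℝ → ℂ := fun ψ => 1 + l₂ / (R / 2 * cexp (-(ψ * I))) with hw₂
  have hw1 : ∀ φ : ℝ, (1 + cf / (ρ * cexp (φ * I)) : ℂ) = w₁ φ := by
    intro φ
    have := Complex.exp_ne_zero (φ * I)
    simp only [hw₁, hl₁, hρd]
    push_cast
    field_simp
  have hw2 : ∀ ψ : ℝ, (starRingEnd ℂ) (w₁ ψ) = w₂ ψ := by
    intro ψ
    have e1 : (starRingEnd ℂ) (R / 2 * cexp (ψ * I)) = R / 2 * cexp (-(ψ * I)) := by
      rw [map_mul, ← Complex.exp_conj, map_mul, Complex.conj_I, Complex.conj_ofReal, map_div₀,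
        Complex.conj_ofReal, Complex.conj_ofNat, mul_neg]
    simp only [hw₁, hw₂]
    rw [map_add, map_one, map_div₀, e1]
  have hnw : ∀ φ : ℝ, ‖w₁ φ‖ ≤ 1 + 2 * ‖l₁‖ / R := by
    intro φ
    have e1 : ‖(R / 2 * cexp (φ * I) : ℂ)‖ = R / 2 := by
      rw [norm_mul, norm_div, Complex.norm_exp_ofReal_mul_I, Complex.norm_real,
        Real.norm_eq_abs, abs_of_pos hR, Complex.norm_ofNat, mul_one]
    have e2 := norm_add_le (1 : ℂ) (l₁ / (R / 2 * cexp (φ * I)))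
    rw [norm_one, norm_div l₁, e1] at e2
    refine e2.trans (le_of_eq ?_)
    field_simp
  have hnw0 : 0 ≤ 1 + 2 * ‖l₁‖ / R := by positivity
  have hcw2 : Continuous w₂ := by
    refine continuous_const.add (continuous_const.div (by fun_prop) fun ψ => ?_)
    exact mul_ne_zero (div_ne_zero hRc two_ne_zero) (Complex.exp_ne_zero _)
  have hcw1 : Continuous w₁ := by
    refine continuous_const.add (continuous_const.div (by fun_prop) fun ψ => ?_)
    exact mul_ne_zero (div_ne_zero hRc two_ne_zero) (Complex.exp_ne_zero _)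
  set F : ℝ × ℝ → ℂ := fun p => ∑ i ∈ X, g i p.1 * (starRingEnd ℂ) (g i p.2) with hF
  set G : ℝ × ℝ → ℂ := fun p => N * (b0 (-R + R / 2 * cexp (p.1 * I))
    (-R + R / 2 * cexp (-(p.2 * I))) x * (w₁ p.1 * w₂ p.2)) with hG
  have hFc : Continuous F := by
    refine continuous_finsetSum X fun i hi => ?_
    exact ((hcg i hi).comp continuous_fst).mul
      (Complex.continuous_conj.comp ((hcg i hi).comp continuous_snd))
  have hGc : Continuous G := by
    refine continuous_const.mul (hbc.mul ?_)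
    exact (hcw1.comp continuous_fst).mul (hcw2.comp continuous_snd)
  have hFG : ∀ p, ‖F p - G p‖ ≤ κ * (1 + 2 * ‖l₁‖ / R) ^ 2 := by
    rintro ⟨φ, ψ⟩
    have h7 : F (φ, ψ) - G (φ, ψ) = ((∑ i ∈ X, Z i (s + ρ * cexp (φ * I)) *
        (starRingEnd ℂ) (Z i (s + ρ * cexp (ψ * I))) * ((‖m i‖ ^ 2 : ℝ) : ℂ)) -
      N * b0 (-R + R / 2 * cexp (φ * I)) (-R + R / 2 * cexp (-(ψ * I))) x) *
        (w₁ φ * w₂ ψ) := by
      rw [sub_mul, Finset.sum_mul]
      simp only [hF, hG]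
      congr 1
      · refine Finset.sum_congr rfl fun i _ => ?_
        simp only [hg]
        rw [hw1, hw1, map_mul, map_mul, hw2, ← Complex.normSq_eq_norm_sq, ← Complex.mul_conj]
        ring
      · ring
    have h8 : ‖w₂ ψ‖ ≤ 1 + 2 * ‖l₁‖ / R := by
      rw [← hw2, RCLike.norm_conj]
      exact hnw ψ
    rw [h7, norm_mul, norm_mul, sq]
    exact mul_le_mul (hB φ ψ) (mul_le_mul (hnw φ) h8 (norm_nonneg _) hnw0)
      (by positivity) ((norm_nonneg _).trans (hB φ ψ))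
  have hfin := le_sub hFc hGc (κ * (1 + 2 * ‖l₁‖ / R) ^ 2) 0 (2 * Real.pi) (by positivity) hFG
  have hFi : ∫ φ in (0 : ℝ)..(2 * Real.pi), ∫ ψ in (0 : ℝ)..(2 * Real.pi), F (φ, ψ) =
      ((2 * Real.pi) ^ 2 : ℝ) * ((∑ i ∈ X, ‖(Z i s + cf * deriv (Z i) s) * m i‖ ^ 2 : ℝ) : ℂ) := by
    rw [← hlhs, hsq]
  have hpi : (2 * Real.pi : ℂ) ^ 2 ≠ 0 := by
    have : (Real.pi : ℂ) ≠ 0 := by exact_mod_cast Real.pi_ne_zero
    exact pow_ne_zero 2 (mul_ne_zero two_ne_zero this)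
  have hJ : ∀ J : ℂ, (((2 * Real.pi) ^ 2 : ℝ) : ℂ) * (N * (1 / (2 * Real.pi : ℂ) ^ 2 * J)) =
      N * J := by
    intro J
    rw [show (((2 * Real.pi) ^ 2 : ℝ) : ℂ) = (2 * Real.pi : ℂ) ^ 2 by push_cast; rfl]
    rw [mul_left_comm, ← mul_assoc ((2 * Real.pi : ℂ) ^ 2), mul_one_div_cancel hpi, one_mul]
  have hGi : ∫ φ in (0 : ℝ)..(2 * Real.pi), ∫ ψ in (0 : ℝ)..(2 * Real.pi), G (φ, ψ) =
      ((2 * Real.pi) ^ 2 : ℝ) * (N * (k0 R x + (l₁ + l₂) * k1 R x + l₁ * l₂ * k2 R x)) := by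
    rw [← hbi, hJ]
    simp only [hG]
    rw [← intervalIntegral.integral_const_mul]
    refine intervalIntegral.integral_congr fun φ _ => ?_
    exact intervalIntegral.integral_const_mul _ _
  rw [hFi, hGi, ← mul_sub, norm_mul, Complex.norm_real, Real.norm_eq_abs, abs_of_nonneg
    (by positivity), sub_zero, mul_comm] at hfin
  exact le_of_mul_le_mul_right hfin (by positivity)

end Pool.Agent.H91.CRZ
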